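import Pool.Agent.Helper3.EL.Defs

/-!
# Project EL, module EL-A: the Eulerian lower bound for multigraphs
-/

set_option autoImplicit false

namespace Pool.Agent.Helper3.EL

open Finset Pool.Agent.Lead.TB Pool.Agent.Lead.TB.Halves Pool.Agent.Helper84.TL

namespace MLower

section Fib

variable {E : Type} [Fintype E] [DecidableEq E] {n m : ℕ}

/-- The labellings of the fibres of `f`. -/
abbrev LabF (f : E → Fin n) (m : ℕ) : Type := (r : Fin n) → ({e : E // f e = r} ≃ Fin m × Bool)

/-- The members of `K` in a fibre. -/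
def inF (f : E → Fin n) (K : Finset E) (r : Fin n) : Finset {e : E // f e = r} :=
  K.subtype fun e => f e = r

omit [Fintype E] [DecidableEq E] in
theorem mem_inF {f : E → Fin n} {K : Finset E} {r : Fin n} {x : {e : E // f e = r}} :
    x ∈ inF f K r ↔ x.1 ∈ K := by
  simp [inF]

omit [Fintype E] [DecidableEq E] in
theorem card_inF (f : E → Fin n) (K : Finset E) (r : Fin n) :
    (inF f K r).card = (K.filter fun e => f e = r).card := by
  rw [inF, Finset.card_subtype]

/-- The labellings of the fibre over `r` compatible with `K`. -/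
def labF (m : ℕ) (f : E → Fin n) (K : Finset E) (r : Fin n) :
    Finset ({e : E // f e = r} ≃ Fin m × Bool) :=
  univ.filter fun e => ∀ i : Fin m, (e.symm (i, true) ∈ inF f K r ↔ e.symm (i, false) ∉ inF f K r)

/-- The labellings compatible with `K`. -/
def comF (m : ℕ) (f : E → Fin n) (K : Finset E) : Finset (LabF f m) :=
  Fintype.piFinset fun r => labF m f K r

theorem card_comF {f : E → Fin n} (hf : ∀ r, (univ.filter fun e => f e = r).card = 2 * m)
    {K : Finset E} (hK : ∀ r, (K.filter fun e => f e = r).card = m) :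
    (comF m f K).card = (2 ^ m * m.factorial ^ 2) ^ n := by
  rw [comF, Fintype.card_piFinset]
  have h4 : ∀ r, (labF m f K r).card = 2 ^ m * m.factorial ^ 2 := fun r =>
    h85_card_lab m (by rw [Fintype.card_subtype, hf]) (inF f K r) (by rw [card_inF, hK])
  simp only [h4, prod_const, card_univ, Fintype.card_fin]

theorem card_LabF {f : E → Fin n} (hf : ∀ r, (univ.filter fun e => f e = r).card = 2 * m) :
    Fintype.card (LabF f m) = (2 * m).factorial ^ n := by
  have hb : Fintype.card (Fin m × Bool) = 2 * m := by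
    rw [Fintype.card_prod, Fintype.card_fin, Fintype.card_bool, mul_comm]
  rw [Fintype.card_pi]
  have h4 : ∀ r : Fin n, Fintype.card ({e : E // f e = r} ≃ Fin m × Bool) =
      (2 * m).factorial := fun r => by
    have h : Fintype.card {e : E // f e = r} = 2 * m := by rw [Fintype.card_subtype, hf]
    rw [Fintype.card_equiv (Fintype.equivOfCardEq (h.trans hb.symm)), h]
  simp only [h4, prod_const, card_univ, Fintype.card_fin]

/-- The partner of an edge. -/
def parF {f : E → Fin n} (l : LabF f m) (e : E) : E := (par (l (f e)) ⟨e, rfl⟩).1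

omit [Fintype E] [DecidableEq E] in
theorem parF_coe {f : E → Fin n} (l : LabF f m) (r : Fin n) (x : {e : E // f e = r}) :
    parF l x.1 = (par (l r) x).1 := by
  obtain ⟨e, rfl⟩ := x
  rfl

omit [Fintype E] [DecidableEq E] in
theorem parF_parF {f : E → Fin n} (l : LabF f m) (e : E) : parF l (parF l e) = e := by
  change parF l (par (l (f e)) ⟨e, rfl⟩).1 = e
  rw [parF_coe, par_par]

omit [Fintype E] [DecidableEq E] in
theorem parF_ne {f : E → Fin n} (l : LabF f m) (e : E) : parF l e ≠ e := by
  intro h
  exact par_ne (l (f e)) ⟨e, rfl⟩ (Subtype.ext h)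

theorem mem_labF {f : E → Fin n} (l : LabF f m) {K : Finset E}
    (hK : ∀ e, e ∈ K ↔ parF l e ∉ K) (r : Fin n) : l r ∈ labF m f K r := by
  rw [labF, mem_filter]
  refine ⟨mem_univ _, fun i => ?_⟩
  rw [mem_inF, mem_inF, hK, parF_coe, par_true]

theorem mem_comF {f : E → Fin n} (l : LabF f m) {K : Finset E}
    (hK : ∀ e, e ∈ K ↔ parF l e ∉ K) : l ∈ comF m f K :=
  Fintype.mem_piFinset.2 fun r => mem_labF l hK r

theorem card_alt_fibre {f : E → Fin n} (l : LabF f m) {K : Finset E}
    (hK : ∀ e, e ∈ K ↔ parF l e ∉ K) (r : Fin n) : (K.filter fun e => f e = r).card = m := by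
  rw [← card_inF]
  exact card_of_pairs (l r) _ (mem_filter.1 (mem_labF l hK r)).2

end Fib

section Split

variable {E : Type} [Fintype E] [DecidableEq E] {n m : ℕ} (row col : E → Fin n)

/-- The `m`-regular spanning subgraphs. -/
def mh (m : ℕ) (row col : E → Fin n) : Finset (Finset E) :=
  univ.filter fun K => (∀ r, (K.filter fun e => row e = r).card = m) ∧
    ∀ c, (K.filter fun e => col e = c).card = m

theorem halvesM (hE : MReg E row col (2 * m)) :
    (2 * m).factorial ^ (2 * n) ≤ (mh m row col).card * (2 ^ m * m.factorial ^ 2) ^ (2 * n) := by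
  classical
  have h0 : Fintype.card (LabF row m × LabF col m) = (2 * m).factorial ^ (2 * n) := by
    rw [Fintype.card_prod, card_LabF hE.1, card_LabF hE.2, ← pow_add, two_mul n]
  rw [← h0]
  calc Fintype.card (LabF row m × LabF col m)
      = (univ : Finset (LabF row m × LabF col m)).card := rfl
    _ ≤ ((mh m row col).biUnion fun K => comF m row K ×ˢ comF m col K).card := by
        apply card_le_card
        rintro ⟨l, l'⟩ _
        obtain ⟨K, hK⟩ := two_color (parF l) (parF l') (parF_parF l) (parF_ne l) (parF_parF l')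
          (parF_ne l')
        have h1 : ∀ e, e ∈ K ↔ parF l e ∉ K := fun e => (hK e).1
        have h2 : ∀ e, e ∈ K ↔ parF l' e ∉ K := fun e => (hK e).2
        refine mem_biUnion.2 ⟨K, ?_, mem_product.2 ⟨mem_comF l h1, mem_comF l' h2⟩⟩
        exact mem_filter.2 ⟨mem_univ _, card_alt_fibre l h1, card_alt_fibre l' h2⟩
    _ ≤ ∑ K ∈ mh m row col, (comF m row K ×ˢ comF m col K).card := card_biUnion_le
    _ = ∑ K ∈ mh m row col, (2 ^ m * m.factorial ^ 2) ^ (2 * n) := by
        refine sum_congr rfl fun K hK => ?_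
        obtain ⟨-, h1, h2⟩ := mem_filter.1 hK
        rw [card_product, card_comF hE.1 h1, card_comF hE.2 h2, ← pow_add, two_mul n]
    _ = _ := by rw [sum_const, smul_eq_mul]

/-- Gluing of two colourings. -/
def gl (K : Finset E) (p : ({e : E // e ∈ K} → Fin m) × ({e : E // e ∉ K} → Fin m)) :
    E → Fin m ⊕ Fin m :=
  fun e => if h : e ∈ K then Sum.inl (p.1 ⟨e, h⟩) else Sum.inr (p.2 ⟨e, h⟩)

omit [Fintype E] in
theorem gl_mem {K : Finset E} {p : ({e : E // e ∈ K} → Fin m) × ({e : E // e ∉ K} → Fin m)}
    {e : E} (h : e ∈ K) : gl K p e = Sum.inl (p.1 ⟨e, h⟩) := dif_pos h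

omit [Fintype E] in
theorem gl_notMem {K : Finset E} {p : ({e : E // e ∈ K} → Fin m) × ({e : E // e ∉ K} → Fin m)}
    {e : E} (h : e ∉ K) : gl K p e = Sum.inr (p.2 ⟨e, h⟩) := dif_neg h

theorem splitM : ∑ K ∈ mh m row col,
    (mfac (Fin m) {e : E // e ∈ K} (fun e => row e.1) (fun e => col e.1)).card *
      (mfac (Fin m) {e : E // e ∉ K} (fun e => row e.1) (fun e => col e.1)).card ≤
    (mfac (Fin m ⊕ Fin m) E row col).card := by
  classical
  have h1 : ∑ K ∈ mh m row col,
      (mfac (Fin m) {e : E // e ∈ K} (fun e => row e.1) (fun e => col e.1)).card *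
        (mfac (Fin m) {e : E // e ∉ K} (fun e => row e.1) (fun e => col e.1)).card =
      ((mh m row col).sigma fun K =>
        mfac (Fin m) {e : E // e ∈ K} (fun e => row e.1) (fun e => col e.1) ×ˢ
          mfac (Fin m) {e : E // e ∉ K} (fun e => row e.1) (fun e => col e.1)).card := by
    rw [card_sigma]
    exact sum_congr rfl fun K _ => (card_product _ _).symm
  rw [h1]
  refine card_le_card_of_injOn (fun q => gl q.1 q.2) ?_ ?_
  · rintro ⟨K, p⟩ hq
    have hq' := mem_sigma.1 (mem_coe.1 hq)
    obtain ⟨h2, h3⟩ := mem_product.1 hq'.2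
    have h2' := (mem_filter.1 h2).2
    have h3' := (mem_filter.1 h3).2
    refine mem_coe.2 (mem_filter.2 ⟨mem_univ _, fun e e' hne hrc => ?_⟩)
    change gl K p e ≠ gl K p e'
    by_cases he : e ∈ K
    · by_cases he' : e' ∈ K
      · rw [gl_mem he, gl_mem he']
        intro h
        exact h2' ⟨e, he⟩ ⟨e', he'⟩ (fun h => hne (congrArg Subtype.val h)) hrc
          (Sum.inl_injective h)
      · rw [gl_mem he, gl_notMem he']
        exact Sum.inl_ne_inr
    · by_cases he' : e' ∈ K
      · rw [gl_notMem he, gl_mem he']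
        exact Sum.inr_ne_inl
      · rw [gl_notMem he, gl_notMem he']
        intro h
        exact h3' ⟨e, he⟩ ⟨e', he'⟩ (fun h => hne (congrArg Subtype.val h)) hrc
          (Sum.inr_injective h)
  · rintro ⟨K, p⟩ _ ⟨K', p'⟩ _ h
    have h' : gl K p = gl K' p' := h
    have hKK : K = K' := by
      ext e
      constructor
      · intro he
        by_contra he'
        have := congrFun h' e
        rw [gl_mem he, gl_notMem he'] at this
        exact Sum.inl_ne_inr this
      · intro he
        by_contra he'
        have := congrFun h' e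
        rw [gl_notMem he', gl_mem he] at this
        exact Sum.inr_ne_inl this
    subst hKK
    have hp : p = p' := by
      refine Prod.ext (funext fun x => ?_) (funext fun x => ?_)
      · have := congrFun h' x.1
        rw [gl_mem x.2, gl_mem x.2] at this
        exact Sum.inl_injective this
      · have := congrFun h' x.1
        rw [gl_notMem x.2, gl_notMem x.2] at this
        exact Sum.inr_injective this
    rw [hp]

theorem mfac_le_congr {ι ι' : Type} [Fintype ι] [DecidableEq ι] [Fintype ι'] [DecidableEq ι']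
    (q : ι ≃ ι') : (mfac ι E row col).card ≤ (mfac ι' E row col).card := by
  refine card_le_card_of_injOn (fun f => q ∘ f) ?_ ?_
  · intro f hf
    have h1 := (mem_filter.1 (mem_coe.1 hf)).2
    exact mem_coe.2 (mem_filter.2 ⟨mem_univ _, fun e e' hne hrc h =>
      h1 e e' hne hrc (q.injective h)⟩)
  · intro f _ f' _ h
    funext e
    exact q.injective (congrFun h e)

variable {row col}

omit [DecidableEq E] in
theorem mreg_mem {K : Finset E} (hK : K ∈ mh m row col) :
    MReg {e : E // e ∈ K} (fun e => row e.1) (fun e => col e.1) m := by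
  obtain ⟨-, h1, h2⟩ := mem_filter.1 hK
  have key : ∀ (f : E → Fin n) (r : Fin n),
      (univ.filter fun e : {e : E // e ∈ K} => f e.1 = r).card =
        (K.filter fun e => f e = r).card := by
    intro f r
    rw [← card_map (Function.Embedding.subtype _)]
    congr 1
    ext e
    simp only [mem_map, mem_filter, mem_univ, true_and, Function.Embedding.subtype_apply]
    constructor
    · rintro ⟨x, hx, rfl⟩
      exact ⟨x.2, hx⟩
    · rintro ⟨he, hr⟩
      exact ⟨⟨e, he⟩, hr, rfl⟩
  exact ⟨fun r => (key row r).trans (h1 r), fun c => (key col c).trans (h2 c)⟩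

theorem mreg_notMem (hE : MReg E row col (2 * m)) {K : Finset E} (hK : K ∈ mh m row col) :
    MReg {e : E // e ∉ K} (fun e => row e.1) (fun e => col e.1) m := by
  obtain ⟨-, h1, h2⟩ := mem_filter.1 hK
  have key : ∀ (f : E → Fin n) (r : Fin n), (univ.filter fun e => f e = r).card = 2 * m →
      (K.filter fun e => f e = r).card = m →
      (univ.filter fun e : {e : E // e ∉ K} => f e.1 = r).card = m := by
    intro f r hr hr'
    have h3 : (univ.filter fun e : {e : E // e ∉ K} => f e.1 = r).card =
        ((univ.filter fun e => f e = r) \ (K.filter fun e => f e = r)).card := by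
      rw [← card_map (Function.Embedding.subtype _)]
      congr 1
      ext e
      simp only [mem_map, mem_filter, mem_univ, true_and, Function.Embedding.subtype_apply,
        mem_sdiff, not_and]
      constructor
      · rintro ⟨x, hx, rfl⟩
        exact ⟨hx, fun h => absurd h x.2⟩
      · rintro ⟨hr, he⟩
        exact ⟨⟨e, fun h => he h hr⟩, hr, rfl⟩
    rw [h3, card_sdiff_of_subset (filter_subset_filter _ (subset_univ _)), hr, hr']
    omega
  exact ⟨fun r => key row r (hE.1 r) (h1 r), fun c => key col c (hE.2 c) (h2 c)⟩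

end Split

theorem aux {n : ℕ} (k : ℕ) : ∀ (N : ℕ), N = 2 ^ k → ∀ (E : Type) [Fintype E] [DecidableEq E]
    (row col : E → Fin n), MReg E row col N →
    (((N.factorial : ℝ)) ^ 2 / ((N : ℝ)) ^ N) ^ n ≤ ((mfac (Fin N) E row col).card : ℝ) := by
  induction k with
  | zero =>
    intro N hN E _ _ row col hE
    have hN1 : N = 1 := by simpa using hN
    subst hN1
    have h1 : 1 ≤ (mfac (Fin 1) E row col).card := by
      rw [Nat.one_le_iff_ne_zero, ← Nat.pos_iff_ne_zero, card_pos]
      refine ⟨fun _ => 0, mem_filter.2 ⟨mem_univ _, fun e e' hne hrc => ?_⟩⟩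
      exfalso
      rcases hrc with h | h
      · obtain ⟨a, ha⟩ := card_eq_one.1 (hE.1 (row e))
        have h2 : e ∈ (univ.filter fun x => row x = row e) := by simp
        have h3 : e' ∈ (univ.filter fun x => row x = row e) := by simp [h]
        rw [ha, mem_singleton] at h2 h3
        exact hne (h2.trans h3.symm)
      · obtain ⟨a, ha⟩ := card_eq_one.1 (hE.2 (col e))
        have h2 : e ∈ (univ.filter fun x => col x = col e) := by simp
        have h3 : e' ∈ (univ.filter fun x => col x = col e) := by simp [h]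
        rw [ha, mem_singleton] at h2 h3
        exact hne (h2.trans h3.symm)
    have : (1 : ℝ) ≤ ((mfac (Fin 1) E row col).card : ℝ) := by exact_mod_cast h1
    simpa using this
  | succ k ih =>
    intro N hN E _ _ row col hE
    obtain ⟨m, hm⟩ : ∃ m, m = 2 ^ k := ⟨_, rfl⟩
    have hNm : N = 2 * m := by rw [hN, hm, pow_succ, mul_comm]
    have hmpos : 0 < m := by rw [hm]; positivity
    clear hN
    subst hNm
    have hs : (∑ K ∈ mh m row col,
        ((mfac (Fin m) {e : E // e ∈ K} (fun e => row e.1) (fun e => col e.1)).card : ℝ) *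
          ((mfac (Fin m) {e : E // e ∉ K} (fun e => row e.1) (fun e => col e.1)).card : ℝ)) ≤
        ((mfac (Fin (2 * m)) E row col).card : ℝ) := by
      have h1 := (splitM (m := m) row col).trans
        (mfac_le_congr row col (finSumFinEquiv.trans (finCongr (two_mul m).symm)))
      exact_mod_cast h1
    have hh : ((2 * m).factorial : ℝ) ^ (2 * n) ≤
        ((mh m row col).card : ℝ) * ((2 : ℝ) ^ m * (m.factorial : ℝ) ^ 2) ^ (2 * n) := by
      exact_mod_cast halvesM row col hE
    set B : ℝ := ((m.factorial : ℝ)) ^ 2 / ((m : ℝ)) ^ m with hB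
    have hB0 : 0 ≤ B := by positivity
    have hsum : ((mh m row col).card : ℝ) * (B ^ n * B ^ n) ≤
        ∑ K ∈ mh m row col,
        ((mfac (Fin m) {e : E // e ∈ K} (fun e => row e.1) (fun e => col e.1)).card : ℝ) *
          ((mfac (Fin m) {e : E // e ∉ K} (fun e => row e.1) (fun e => col e.1)).card : ℝ) := by
      rw [← nsmul_eq_mul, ← sum_const]
      refine sum_le_sum fun K hK => ?_
      exact mul_le_mul (ih m hm _ _ _ (mreg_mem hK)) (ih m hm _ _ _ (mreg_notMem hE hK))
        (by positivity) (by positivity)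
    refine le_trans ?_ (le_trans hsum hs)
    have hmr : (0 : ℝ) < m := by exact_mod_cast hmpos
    have e1 : (((2 * m).factorial : ℝ) ^ 2 / (((2 * m : ℕ) : ℝ)) ^ (2 * m)) ^ n =
        ((2 * m).factorial : ℝ) ^ (2 * n) / (((2 : ℝ) ^ m) ^ (2 * n) * ((m : ℝ) ^ m) ^ (2 * n)) := by
      push_cast
      rw [div_pow, ← pow_mul, ← pow_mul, ← mul_pow, ← mul_pow, ← pow_mul,
        show 2 * m * n = m * (2 * n) by ring]
    have e2 : ((mh m row col).card : ℝ) * (B ^ n * B ^ n) =
        (((mh m row col).card : ℝ) * ((2 : ℝ) ^ m * (m.factorial : ℝ) ^ 2) ^ (2 * n)) /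
          (((2 : ℝ) ^ m) ^ (2 * n) * ((m : ℝ) ^ m) ^ (2 * n)) := by
      have h2 : ((2 : ℝ) ^ m) ^ (2 * n) ≠ 0 := by positivity
      have h3 : ((m : ℝ) ^ m) ^ (2 * n) ≠ 0 := by positivity
      rw [← pow_add, ← two_mul, hB, div_pow, mul_pow]
      field_simp
    rw [e1, e2]
    exact div_le_div_of_nonneg_right hh (by positivity)

end MLower

theorem mlower {n k : ℕ} (E : Type) [Fintype E] [DecidableEq E] (row col : E → Fin n)
    (hE : MReg E row col (2 ^ k)) :
    KK k ^ n ≤ ((mfac (Fin (2 ^ k)) E row col).card : ℝ) := by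
  have h := MLower.aux k (2 ^ k) rfl E row col hE
  push_cast at h
  exact h

end Pool.Agent.Helper3.EL
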